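import Mathlib

/-!
# Independent sets with overlapping neighbourhoods in triangle-free graphs

A uniformly random `t`-subset of a triangle-free graph, with the vertices having a neighbour in the
subset removed, has neighbourhoods with a large expected overlap.
-/

set_option autoImplicit false

namespace Pool.Agent.H94.Ram

open Finset

section count

variable {V : Type*} [Fintype V] [DecidableEq V]

/-- the number of `t`-subsets containing a given set of `j ≤ t` elements -/
lemma card_supersets (A : Finset V) (t : ℕ) (hA : A.card ≤ t) :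
    (((univ : Finset V).powersetCard t).filter (fun S => A ⊆ S)).card =
      (Fintype.card V - A.card).choose (t - A.card) := by
  have h1 : ((univ : Finset V) \ A).card = Fintype.card V - A.card := by
    rw [Finset.card_sdiff_of_subset (subset_univ A), Finset.card_univ]
  rw [← h1, ← Finset.card_powersetCard]
  apply Finset.card_bij (fun S _ => S \ A)
  · intro S hS
    simp only [Finset.mem_filter, Finset.mem_powersetCard] at hS ⊢
    refine ⟨Finset.sdiff_subset_sdiff hS.1.1 le_rfl, ?_⟩
    rw [Finset.card_sdiff_of_subset hS.2, hS.1.2]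
  · intro S hS T hT h
    simp only [Finset.mem_filter] at hS hT
    rw [← Finset.sdiff_union_of_subset hS.2, ← Finset.sdiff_union_of_subset hT.2, h]
  · intro B hB
    simp only [Finset.mem_powersetCard] at hB
    have hd : Disjoint B A := (Finset.subset_sdiff.1 hB.1).2
    refine ⟨B ∪ A, ?_, ?_⟩
    · simp only [Finset.mem_filter, Finset.mem_powersetCard]
      refine ⟨⟨subset_univ _, ?_⟩, Finset.subset_union_right⟩
      rw [Finset.card_union_of_disjoint hd, hB.2]
      omega
    · rw [Finset.union_sdiff_right, Finset.sdiff_eq_self_of_disjoint hd]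

/-- no `t`-subset contains more than `t` elements -/
lemma card_supersets_zero (A : Finset V) (t : ℕ) (hA : t < A.card) :
    (((univ : Finset V).powersetCard t).filter (fun S => A ⊆ S)).card = 0 := by
  rw [Finset.card_eq_zero, Finset.filter_eq_empty_iff]
  intro S hS h
  rw [Finset.mem_powersetCard] at hS
  have := Finset.card_le_card h
  omega

end count

/-- Bonferroni -/
lemma one_le_bonf (m : ℕ) (hm : 1 ≤ m) :
    (1 : ℤ) ≤ (m : ℤ) - (m.choose 2 : ℤ) + (m.choose 3 : ℤ) := by
  rcases Nat.lt_or_ge m 5 with h | h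
  · interval_cases m <;> simp [Nat.choose]
  · have h1 : m.choose 2 ≤ m.choose 3 := by
      have h2 : m.choose 3 * 3 = m.choose 2 * (m - 2) := Nat.choose_succ_right_eq m 2
      have h3 : 3 ≤ m - 2 := by omega
      nlinarith
    have h2 : (m.choose 2 : ℤ) ≤ (m.choose 3 : ℤ) := by exact_mod_cast h1
    have h3 : (1 : ℤ) ≤ (m : ℤ) := by exact_mod_cast hm
    linarith

lemma choose3_le (d D : ℕ) (h : d ≤ D) : d.choose 3 ≤ D * d.choose 2 := by
  have h2 : d.choose 3 * 3 = d.choose 2 * (d - 2) := Nat.choose_succ_right_eq d 2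
  have h3 : d.choose 2 * (d - 2) ≤ d.choose 2 * D := Nat.mul_le_mul_left _ (by omega)
  nlinarith

section main

variable {V : Type*} [Fintype V] [DecidableEq V] (G : SimpleGraph V) [DecidableRel G.Adj]

/-- the neighbours of `v` -/
def nb (v : V) : Finset V := univ.filter (fun u => G.Adj v u)

/-- the union of the neighbourhoods -/
def nbU (I : Finset V) : Finset V := univ.filter (fun z => ∃ u ∈ I, G.Adj z u)

/-- the vertices of `S` without a neighbour in `S` -/
def iso (S : Finset V) : Finset V := S.filter (fun u => ∀ w ∈ S, ¬ G.Adj u w)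

omit [DecidableEq V] in
lemma mem_nb {v u : V} : u ∈ nb G v ↔ G.Adj v u := by simp [nb]

lemma iso_indep (S : Finset V) : ∀ x ∈ iso G S, ∀ y ∈ iso G S, ¬ G.Adj x y := by
  intro x hx y hy
  simp only [iso, Finset.mem_filter] at hx hy
  exact hx.2 y hy.1

lemma iso_subset (S : Finset V) : iso G S ⊆ S := Finset.filter_subset _ _

lemma sum_inter_card (I : Finset V) :
    ∑ z : V, (I ∩ nb G z).card = ∑ u ∈ I, (nb G u).card := by
  have h1 : ∀ z : V, (I ∩ nb G z).card = ∑ u ∈ I, if G.Adj z u then 1 else 0 := by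
    intro z
    rw [← Finset.card_filter]
    congr 1
    ext u
    simp [mem_nb]
  have h2 : ∀ u : V, (nb G u).card = ∑ z : V, if G.Adj z u then 1 else 0 := by
    intro u
    rw [← Finset.card_filter]
    congr 1
    ext z
    simp [nb, G.adj_comm]
  simp_rw [h1, h2]
  rw [Finset.sum_comm]

/-- the size of the union of the neighbourhoods, by Bonferroni -/
lemma card_nbU_le (I : Finset V) (D : ℕ) (hD : ∀ v, (nb G v).card ≤ D) :
    ((nbU G I).card : ℤ) ≤ D * I.card - ∑ z : V, ((I ∩ nb G z).card.choose 2 : ℤ) +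
      ∑ z : V, ((I ∩ nb G z).card.choose 3 : ℤ) := by
  have h1 : ((nbU G I).card : ℤ) = ∑ z : V, if 1 ≤ (I ∩ nb G z).card then (1 : ℤ) else 0 := by
    rw [nbU, Finset.card_filter]
    push_cast
    apply Finset.sum_congr rfl
    intro z _
    have : (∃ u ∈ I, G.Adj z u) ↔ 1 ≤ (I ∩ nb G z).card := by
      rw [Nat.one_le_iff_ne_zero, Ne, Finset.card_eq_zero, ← Ne, ← Finset.nonempty_iff_ne_empty]
      constructor
      · rintro ⟨u, hu, h⟩
        exact ⟨u, by simp [hu, mem_nb, h]⟩
      · rintro ⟨u, hu⟩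
        simp only [Finset.mem_inter, mem_nb] at hu
        exact ⟨u, hu.1, hu.2⟩
    simp only [this]
  have h2 : ∀ z : V, (if 1 ≤ (I ∩ nb G z).card then (1 : ℤ) else 0) ≤
      ((I ∩ nb G z).card : ℤ) - ((I ∩ nb G z).card.choose 2 : ℤ) +
        ((I ∩ nb G z).card.choose 3 : ℤ) := by
    intro z
    split_ifs with h
    · exact one_le_bonf _ h
    · have : (I ∩ nb G z).card = 0 := by omega
      rw [this]
      simp
  have h3 : ∑ z : V, ((I ∩ nb G z).card : ℤ) ≤ D * I.card := by
    have := sum_inter_card G I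
    have h4 : ∑ u ∈ I, (nb G u).card ≤ I.card * D := by
      rw [← smul_eq_mul]
      exact Finset.sum_le_card_nsmul _ _ _ (fun u _ => hD u)
    rw [← this] at h4
    have h5 : ((∑ z : V, (I ∩ nb G z).card : ℕ) : ℤ) ≤ ((I.card * D : ℕ) : ℤ) := by
      exact_mod_cast h4
    push_cast at h5
    linarith
  rw [h1]
  calc ∑ z : V, (if 1 ≤ (I ∩ nb G z).card then (1 : ℤ) else 0)
      ≤ ∑ z : V, (((I ∩ nb G z).card : ℤ) - ((I ∩ nb G z).card.choose 2 : ℤ) +
        ((I ∩ nb G z).card.choose 3 : ℤ)) := Finset.sum_le_sum (fun z _ => h2 z)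
    _ = ∑ z : V, ((I ∩ nb G z).card : ℤ) - ∑ z : V, ((I ∩ nb G z).card.choose 2 : ℤ) +
        ∑ z : V, ((I ∩ nb G z).card.choose 3 : ℤ) := by
        rw [Finset.sum_add_distrib, Finset.sum_sub_distrib]
    _ ≤ _ := by linarith

omit [Fintype V] in
/-- subsets of an intersection, counted in the larger set -/
lemma choose_inter_card (I B : Finset V) (j : ℕ) :
    (I ∩ B).card.choose j = ((B.powersetCard j).filter (fun P => P ⊆ I)).card := by
  rw [← Finset.card_powersetCard]
  congr 1
  ext P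
  simp only [Finset.mem_powersetCard, Finset.mem_filter, Finset.subset_inter_iff]
  tauto

lemma sum_choose_inter (F : Finset (Finset V)) (I : Finset V → Finset V) (B : Finset V) (j : ℕ) :
    ∑ S ∈ F, ((I S ∩ B).card.choose j) =
      ∑ P ∈ B.powersetCard j, (F.filter (fun S => P ⊆ I S)).card := by
  simp_rw [choose_inter_card, Finset.card_filter]
  rw [Finset.sum_comm]

/-- the `t`-subsets in which two given non-adjacent vertices survive -/
lemma card_pair_ge (t D : ℕ) (P : Finset V) (hP : P.card = 2) (ht : 2 ≤ t)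
    (hind : ∀ x ∈ P, ∀ y ∈ P, ¬ G.Adj x y) (hD : ∀ v, (nb G v).card ≤ D) (c3 : ℕ)
    (hc3 : ∀ A : Finset V, A.card = 3 →
      (((univ : Finset V).powersetCard t).filter (fun S => A ⊆ S)).card = c3) :
    (((Fintype.card V - 2).choose (t - 2) : ℕ) : ℤ) - 2 * D * c3 ≤
      ((((univ : Finset V).powersetCard t).filter (fun S => P ⊆ iso G S)).card : ℤ) := by
  set F := (univ : Finset V).powersetCard t with hF
  set NP := P.biUnion (fun u => nb G u) with hNP
  have h1 : (F.filter (fun S => P ⊆ S)) ⊆ (F.filter (fun S => P ⊆ iso G S)) ∪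
      NP.biUnion (fun w => F.filter (fun S => insert w P ⊆ S)) := by
    intro S hS
    simp only [Finset.mem_filter] at hS
    by_cases h : P ⊆ iso G S
    · simp only [Finset.mem_union, Finset.mem_filter]
      exact Or.inl ⟨hS.1, h⟩
    · rw [Finset.not_subset] at h
      obtain ⟨u, hu, hu2⟩ := h
      have huS := hS.2 hu
      simp only [iso, Finset.mem_filter, not_and, not_forall, not_not] at hu2
      obtain ⟨w, hw, hw2⟩ := hu2 huS
      simp only [Finset.mem_union, Finset.mem_biUnion, Finset.mem_filter]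
      refine Or.inr ⟨w, ?_, hS.1, ?_⟩
      · rw [hNP, Finset.mem_biUnion]
        exact ⟨u, hu, by rw [mem_nb]; exact hw2⟩
      · exact Finset.insert_subset hw hS.2
  have h2 := (Finset.card_le_card h1).trans (Finset.card_union_le _ _)
  have h3 : (NP.biUnion (fun w => F.filter (fun S => insert w P ⊆ S))).card ≤ NP.card * c3 := by
    apply Finset.card_biUnion_le_card_mul
    intro w hw
    apply le_of_eq
    apply hc3
    rw [Finset.card_insert_of_notMem, hP]
    intro hwP
    rw [hNP, Finset.mem_biUnion] at hw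
    obtain ⟨u, hu, hw2⟩ := hw
    rw [mem_nb] at hw2
    exact hind u hu w hwP hw2
  have h4 : NP.card ≤ 2 * D := by
    rw [← hP]
    exact Finset.card_biUnion_le_card_mul _ _ _ (fun u _ => hD u)
  have h5 := card_supersets P t (by omega)
  rw [hP] at h5
  rw [← hF] at h5
  rw [h5] at h2
  have h6 : NP.card * c3 ≤ 2 * D * c3 := Nat.mul_le_mul_right _ h4
  have h7 : (Fintype.card V - 2).choose (t - 2) ≤
      (F.filter (fun S => P ⊆ iso G S)).card + 2 * D * c3 := by omega
  have h8 : (((Fintype.card V - 2).choose (t - 2) : ℕ) : ℤ) ≤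
      (((F.filter (fun S => P ⊆ iso G S)).card + 2 * D * c3 : ℕ) : ℤ) := by exact_mod_cast h7
  push_cast at h8 ⊢
  linarith

/-- the sum over all `t`-subsets of the gains -/
lemma sum_gain (t D δ : ℕ) (ht : 2 ≤ t)
    (hT : ∀ a b c, G.Adj a b → G.Adj b c → G.Adj a c → False)
    (hδ : ∀ v, δ ≤ (nb G v).card) (hD : ∀ v, (nb G v).card ≤ D) (c3 : ℕ)
    (hc3 : ∀ A : Finset V, A.card = 3 →
      (((univ : Finset V).powersetCard t).filter (fun S => A ⊆ S)).card = c3)
    (hpos : 3 * D * c3 ≤ (Fintype.card V - 2).choose (t - 2)) :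
    (Fintype.card V : ℤ) * (δ.choose 2 : ℤ) *
        (((Fintype.card V - 2).choose (t - 2) : ℕ) - 3 * D * c3) ≤
      ∑ S ∈ (univ : Finset V).powersetCard t,
        ((D : ℤ) * (iso G S).card - ((nbU G (iso G S)).card : ℤ)) := by
  set F := (univ : Finset V).powersetCard t with hF
  have h1 : ∀ S ∈ F, ∑ z : V, (((iso G S) ∩ nb G z).card.choose 2 : ℤ) -
      ∑ z : V, ((S ∩ nb G z).card.choose 3 : ℤ) ≤
      (D : ℤ) * (iso G S).card - ((nbU G (iso G S)).card : ℤ) := by
    intro S _
    have h2 := card_nbU_le G (iso G S) D hD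
    have h3 : ∑ z : V, (((iso G S) ∩ nb G z).card.choose 3 : ℤ) ≤
        ∑ z : V, ((S ∩ nb G z).card.choose 3 : ℤ) := by
      apply Finset.sum_le_sum
      intro z _
      have : ((iso G S) ∩ nb G z).card.choose 3 ≤ (S ∩ nb G z).card.choose 3 :=
        Nat.choose_le_choose _ (Finset.card_le_card
          (Finset.inter_subset_inter (iso_subset G S) le_rfl))
      exact_mod_cast this
    linarith
  refine le_trans ?_ (Finset.sum_le_sum h1)
  rw [Finset.sum_sub_distrib, Finset.sum_comm, Finset.sum_comm (s := F), ← Finset.sum_sub_distrib]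
  have h4 : ∀ z : V, (δ.choose 2 : ℤ) *
      (((Fintype.card V - 2).choose (t - 2) : ℕ) - 3 * D * c3) ≤
      ∑ S ∈ F, (((iso G S) ∩ nb G z).card.choose 2 : ℤ) -
        ∑ S ∈ F, ((S ∩ nb G z).card.choose 3 : ℤ) := by
    intro z
    have h5 : (∑ S ∈ F, (((iso G S) ∩ nb G z).card.choose 2 : ℤ)) =
        ∑ P ∈ (nb G z).powersetCard 2, ((F.filter (fun S => P ⊆ iso G S)).card : ℤ) := by
      have := sum_choose_inter F (iso G) (nb G z) 2
      exact_mod_cast this
    have h6 : (∑ S ∈ F, ((S ∩ nb G z).card.choose 3 : ℤ)) =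
        ∑ P ∈ (nb G z).powersetCard 3, ((F.filter (fun S => P ⊆ S)).card : ℤ) := by
      have := sum_choose_inter F (fun S => S) (nb G z) 3
      exact_mod_cast this
    have h7 : (((nb G z).card.choose 2 : ℕ) : ℤ) *
        ((((Fintype.card V - 2).choose (t - 2) : ℕ) : ℤ) - 2 * D * c3) ≤
        ∑ P ∈ (nb G z).powersetCard 2, ((F.filter (fun S => P ⊆ iso G S)).card : ℤ) := by
      rw [← Finset.card_powersetCard, ← nsmul_eq_mul]
      apply Finset.card_nsmul_le_sum
      intro P hP
      rw [Finset.mem_powersetCard] at hP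
      apply card_pair_ge G t D P hP.2 ht _ hD c3 hc3
      intro x hx y hy hxy
      have h8 := hP.1 hx
      have h9 := hP.1 hy
      rw [mem_nb] at h8 h9
      exact hT z x y h8 hxy h9
    have h8 : ∑ P ∈ (nb G z).powersetCard 3, ((F.filter (fun S => P ⊆ S)).card : ℤ) =
        (((nb G z).card.choose 3 : ℕ) : ℤ) * c3 := by
      rw [← Finset.card_powersetCard, ← nsmul_eq_mul]
      apply Finset.sum_eq_card_nsmul
      intro P hP
      rw [Finset.mem_powersetCard] at hP
      exact_mod_cast hc3 P hP.2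
    rw [h5, h6, h8]
    have h9 : (((nb G z).card.choose 3 : ℕ) : ℤ) ≤ D * (((nb G z).card.choose 2 : ℕ) : ℤ) := by
      exact_mod_cast choose3_le _ D (hD z)
    have h10 : ((δ.choose 2 : ℕ) : ℤ) ≤ (((nb G z).card.choose 2 : ℕ) : ℤ) := by
      exact_mod_cast Nat.choose_le_choose 2 (hδ z)
    have h11 : (0 : ℤ) ≤ (((Fintype.card V - 2).choose (t - 2) : ℕ) : ℤ) - 3 * D * c3 := by
      have : ((3 * D * c3 : ℕ) : ℤ) ≤ (((Fintype.card V - 2).choose (t - 2) : ℕ) : ℤ) := by
        exact_mod_cast hpos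
      push_cast at this ⊢
      linarith
    have h12 := mul_le_mul_of_nonneg_right h10 h11
    have h13 : (((nb G z).card.choose 3 : ℕ) : ℤ) * c3 ≤
        D * (((nb G z).card.choose 2 : ℕ) : ℤ) * c3 :=
      mul_le_mul_of_nonneg_right h9 (by positivity)
    nlinarith
  have h14 := Finset.card_nsmul_le_sum (univ : Finset V) _ _ (fun z _ => h4 z)
  rw [Finset.card_univ, nsmul_eq_mul] at h14
  rw [mul_assoc]
  exact h14

/-- In a triangle-free graph with all degrees in `[δ, D]` there is an independent set `I` of at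
most `t` vertices whose neighbourhoods overlap as much as those of random vertices. -/
theorem exists_indep (t D δ : ℕ) (ht : 2 ≤ t) (htN : t ≤ Fintype.card V)
    (hN : 3 ≤ Fintype.card V)
    (hT : ∀ a b c, G.Adj a b → G.Adj b c → G.Adj a c → False)
    (hδ : ∀ v, δ ≤ (nb G v).card) (hD : ∀ v, (nb G v).card ≤ D)
    (h3 : 3 * D * (t - 2) ≤ Fintype.card V - 2) :
    ∃ I : Finset V, (∀ x ∈ I, ∀ y ∈ I, ¬ G.Adj x y) ∧ I.card ≤ t ∧
      ((nbU G I).card : ℝ) ≤ D * I.card - ((t : ℝ) * (t - 1) / 2) *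
        ((δ : ℝ) * (δ - 1) / Fintype.card V) *
        (1 - 3 * D * ((t : ℝ) - 2) / ((Fintype.card V : ℝ) - 2)) := by
  set N := Fintype.card V with hNdef
  -- the number of `t`-sets containing a given three-element set
  obtain ⟨c3, hc3, hc3'⟩ : ∃ c3 : ℕ, (∀ A : Finset V, A.card = 3 →
      (((univ : Finset V).powersetCard t).filter (fun S => A ⊆ S)).card = c3) ∧
      c3 * (N - 2) = (N - 2).choose (t - 2) * (t - 2) := by
    rcases Nat.lt_or_ge t 3 with h | h
    · refine ⟨0, fun A hA => card_supersets_zero A t (by omega), ?_⟩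
      have : t - 2 = 0 := by omega
      simp [this]
    · refine ⟨(N - 3).choose (t - 3), fun A hA => ?_, ?_⟩
      · have := card_supersets A t (by omega)
        rw [hA] at this
        exact this
      · obtain ⟨a, rfl⟩ : ∃ a, t = a + 3 := ⟨t - 3, by omega⟩
        obtain ⟨b, hb⟩ : ∃ b, N = b + 3 := ⟨N - 3, by omega⟩
        rw [hb]
        have := Nat.add_one_mul_choose_eq b a
        rw [show b + 3 - 2 = b + 1 by omega, show a + 3 - 2 = a + 1 by omega,
          show b + 3 - 3 = b by omega, show a + 3 - 3 = a by omega, mul_comm]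
        exact this
  have hpos : 3 * D * c3 ≤ (N - 2).choose (t - 2) := by
    have h4 : (3 * D * c3) * (N - 2) ≤ (N - 2).choose (t - 2) * (N - 2) := by
      calc (3 * D * c3) * (N - 2) = 3 * D * (c3 * (N - 2)) := by ring
        _ = (N - 2).choose (t - 2) * (3 * D * (t - 2)) := by rw [hc3']; ring
        _ ≤ (N - 2).choose (t - 2) * (N - 2) := Nat.mul_le_mul_left _ h3
    exact Nat.le_of_mul_le_mul_right h4 (by omega)
  have hsum := sum_gain G t D δ ht hT hδ hD c3 hc3 hpos
  rw [← hNdef] at hsum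
  -- pick the best subset
  have hcardF : ((univ : Finset V).powersetCard t).card = N.choose t := by
    rw [Finset.card_powersetCard, Finset.card_univ]
  have hchpos : 0 < N.choose t := Nat.choose_pos htN
  have hne : ((univ : Finset V).powersetCard t).Nonempty := by
    rw [← Finset.card_pos, hcardF]
    exact hchpos
  obtain ⟨S, hS, hmax⟩ := Finset.exists_max_image ((univ : Finset V).powersetCard t)
    (fun S => (D : ℤ) * (iso G S).card - ((nbU G (iso G S)).card : ℤ)) hne
  have h5 : (N : ℤ) * (δ.choose 2 : ℤ) * (((N - 2).choose (t - 2) : ℕ) - 3 * D * c3) ≤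
      (N.choose t : ℤ) * ((D : ℤ) * (iso G S).card - ((nbU G (iso G S)).card : ℤ)) := by
    refine hsum.trans ?_
    have := Finset.sum_le_card_nsmul _ _ _ hmax
    rw [hcardF, nsmul_eq_mul] at this
    exact this
  refine ⟨iso G S, iso_indep G S, ?_, ?_⟩
  · rw [Finset.mem_powersetCard] at hS
    rw [← hS.2]
    exact Finset.card_le_card (iso_subset G S)
  · -- pass to real numbers
    set g : ℝ := (D : ℝ) * (iso G S).card - (nbU G (iso G S)).card with hg
    have h6 : (N : ℝ) * (δ.choose 2 : ℝ) * (((N - 2).choose (t - 2) : ℕ) - 3 * D * c3) ≤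
        (N.choose t : ℝ) * g := by
      rw [hg]
      exact_mod_cast h5
    have hNr : (3 : ℝ) ≤ N := by exact_mod_cast hN
    have htr : (2 : ℝ) ≤ t := by exact_mod_cast ht
    have hch : ((N.choose t : ℕ) : ℝ) * (t * (t - 1)) =
        (N * (N - 1)) * (((N - 2).choose (t - 2) : ℕ) : ℝ) := by
      obtain ⟨a, rfl⟩ : ∃ a, t = a + 2 := ⟨t - 2, by omega⟩
      obtain ⟨b, hb⟩ : ∃ b, N = b + 2 := ⟨N - 2, by omega⟩
      rw [hb]
      have e1 := Nat.add_one_mul_choose_eq (b + 1) (a + 1)
      have e2 := Nat.add_one_mul_choose_eq b a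
      have e1' : ((b : ℝ) + 1 + 1) * ((b + 1).choose (a + 1) : ℕ) =
          ((b + 1 + 1).choose (a + 1 + 1) : ℕ) * ((a : ℝ) + 1 + 1) := by exact_mod_cast e1
      have e2' : ((b : ℝ) + 1) * (b.choose a : ℕ) =
          ((b + 1).choose (a + 1) : ℕ) * ((a : ℝ) + 1) := by exact_mod_cast e2
      rw [show b + 2 - 2 = b by omega, show a + 2 - 2 = a by omega]
      push_cast
      have : (((b + 2).choose (a + 2) : ℕ) : ℝ) * ((a : ℝ) + 1 + 1) =
          ((b : ℝ) + 1 + 1) * ((b + 1).choose (a + 1) : ℕ) := e1'.symm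
      calc (((b + 2).choose (a + 2) : ℕ) : ℝ) * (((a : ℝ) + 2) * ((a : ℝ) + 2 - 1))
          = ((((b + 2).choose (a + 2) : ℕ) : ℝ) * ((a : ℝ) + 1 + 1)) * ((a : ℝ) + 1) := by ring
        _ = (((b : ℝ) + 1 + 1) * ((b + 1).choose (a + 1) : ℕ)) * ((a : ℝ) + 1) := by rw [this]
        _ = ((b : ℝ) + 1 + 1) * (((b + 1).choose (a + 1) : ℕ) * ((a : ℝ) + 1)) := by ring
        _ = ((b : ℝ) + 1 + 1) * (((b : ℝ) + 1) * (b.choose a : ℕ)) := by rw [e2']
        _ = _ := by ring
    have hc3r : (c3 : ℝ) * ((N : ℝ) - 2) =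
        (((N - 2).choose (t - 2) : ℕ) : ℝ) * ((t : ℝ) - 2) := by
      have : ((c3 * (N - 2) : ℕ) : ℝ) = (((N - 2).choose (t - 2) * (t - 2) : ℕ) : ℝ) := by
        rw [hc3']
      push_cast [Nat.cast_sub (show 2 ≤ N by omega), Nat.cast_sub ht] at this
      exact this
    have hδc : (δ.choose 2 : ℝ) = (δ : ℝ) * (δ - 1) / 2 := Nat.cast_choose_two ℝ δ
    set c2 : ℝ := (((N - 2).choose (t - 2) : ℕ) : ℝ) with hc2
    have hc2pos : 0 < c2 := by
      rw [hc2]
      exact_mod_cast Nat.choose_pos (by omega : t - 2 ≤ N - 2)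
    have hN2 : (0 : ℝ) < (N : ℝ) - 2 := by linarith
    have hN0 : (0 : ℝ) < N := by linarith
    have hfac : c2 - 3 * D * c3 = c2 * (1 - 3 * D * ((t : ℝ) - 2) / ((N : ℝ) - 2)) := by
      have : (c3 : ℝ) = c2 * ((t : ℝ) - 2) / ((N : ℝ) - 2) := by
        rw [eq_div_iff hN2.ne']
        exact hc3r
      rw [this]
      field_simp
    set f : ℝ := 1 - 3 * D * ((t : ℝ) - 2) / ((N : ℝ) - 2) with hf
    have hf0 : 0 ≤ f := by
      have : (0 : ℝ) ≤ c2 - 3 * D * c3 := by
        have : ((3 * D * c3 : ℕ) : ℝ) ≤ c2 := by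
          rw [hc2]
          exact_mod_cast hpos
        push_cast at this
        linarith
      rw [hfac] at this
      by_contra hneg
      push Not at hneg
      nlinarith
    rw [hfac, hδc] at h6
    -- `N choose t = N (N-1) c2 / (t (t-1))`
    have ht1 : (0 : ℝ) < t * (t - 1) := by nlinarith
    have h7 : (N : ℝ) * ((δ : ℝ) * (δ - 1) / 2) * (c2 * f) * (t * (t - 1)) ≤
        (N * (N - 1)) * c2 * g := by
      have := mul_le_mul_of_nonneg_right h6 ht1.le
      calc (N : ℝ) * ((δ : ℝ) * (δ - 1) / 2) * (c2 * f) * (t * (t - 1))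
          ≤ (N.choose t : ℝ) * g * (t * (t - 1)) := this
        _ = ((N.choose t : ℝ) * (t * (t - 1))) * g := by ring
        _ = _ := by rw [hch]
    have h8 : ((δ : ℝ) * (δ - 1) / 2) * f * (t * (t - 1)) ≤ (N - 1) * g := by
      have h9 : (N * c2) * (((δ : ℝ) * (δ - 1) / 2) * f * (t * (t - 1))) ≤
          (N * c2) * ((N - 1) * g) := by nlinarith
      exact le_of_mul_le_mul_left h9 (by positivity)
    have hδ0 : (0 : ℝ) ≤ (δ : ℝ) * (δ - 1) := by
      have := hδc ▸ (Nat.cast_nonneg (δ.choose 2) : (0 : ℝ) ≤ _)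
      linarith
    have hA : 0 ≤ ((δ : ℝ) * (δ - 1) / 2) * f * (t * (t - 1)) := by positivity
    have hg0 : 0 ≤ g := by
      by_contra hneg
      push Not at hneg
      have : ((N : ℝ) - 1) * g < 0 := mul_neg_of_pos_of_neg (by linarith) hneg
      linarith
    have h10 : ((t : ℝ) * (t - 1) / 2) * ((δ : ℝ) * (δ - 1) / N) * f ≤ g := by
      have h11 : ((δ : ℝ) * (δ - 1) / 2) * f * (t * (t - 1)) ≤ N * g := by nlinarith
      have : ((t : ℝ) * (t - 1) / 2) * ((δ : ℝ) * (δ - 1) / N) * f =
          (((δ : ℝ) * (δ - 1) / 2) * f * (t * (t - 1))) / N := by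
        field_simp
      rw [this, div_le_iff₀ hN0]
      linarith
    rw [hg] at h10
    linarith

end main

end Pool.Agent.H94.Ram
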