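import Pool.Agent.H94.Ram.Window

/-!
# The deficit of `t` consecutive differences is at least `(1 - ε) C(t,2) k² / R(3,k)`
-/

set_option autoImplicit false

namespace Pool.Agent.H94.Ram

open Finset
open Pool.Agent.H41.RamseyStep (Good R R_spec exists_good Good.card_lt R_pos)

/-- the induction -/
lemma core {ε : ℝ} (h0 : 0 < ε) (h1 : ε < 1) (K : ℕ) (hK : 100 / ε ≤ (K : ℝ)) :
    ∀ t m : ℕ, ((m : ℝ) + t) ≤ (ε / 24) * (R K) / K →
      (R (K - m) : ℝ) ≤ R (K - m - t) + t * K -
        (1 - ε) * ((t : ℝ) * (t - 1) / 2) * ((K : ℝ) ^ 2 / R K) := by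
  have hKpos : (0 : ℝ) < K := lt_of_lt_of_le (by positivity) hK
  have hεK : 100 ≤ ε * K := by
    rw [div_le_iff₀ h0] at hK
    linarith
  have hK100 : (100 : ℝ) ≤ K := by
    have : ε * (K : ℝ) ≤ 1 * K := mul_le_mul_of_nonneg_right h1.le hKpos.le
    linarith
  have hRK : (K : ℝ) ≤ R K := by exact_mod_cast le_R K
  have hRpos : (0 : ℝ) < R K := by linarith
  have hRK2 : (R K : ℝ) ≤ (K : ℝ) * K := by
    have := R_iter K K le_rfl
    rw [Nat.sub_self, R_zero, Nat.zero_add] at this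
    exact_mod_cast this
  have hRdiv : (R K : ℝ) / K ≤ K := by
    rw [div_le_iff₀ hKpos]
    exact hRK2
  intro t
  induction t with
  | zero => intro m _; simp
  | succ t ih =>
    intro m hm
    push_cast at hm
    have hmt : ((m : ℝ) + (t + 1)) * K ≤ (ε / 24) * R K := by
      rwa [le_div_iff₀ hKpos] at hm
    have hmtK : (m : ℝ) + (t + 1) ≤ (ε / 24) * K := by
      calc (m : ℝ) + (t + 1) ≤ (ε / 24) * (R K) / K := hm
        _ = (ε / 24) * (R K / K) := by ring
        _ ≤ (ε / 24) * K := by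
          apply mul_le_mul_of_nonneg_left hRdiv
          positivity
    have hm0 : (0 : ℝ) ≤ m := Nat.cast_nonneg m
    have ht0 : (0 : ℝ) ≤ t := Nat.cast_nonneg t
    have hεK1 : ε * (K : ℝ) ≤ 1 * K := mul_le_mul_of_nonneg_right h1.le hKpos.le
    have hεR1 : ε * (R K : ℝ) ≤ 1 * R K := mul_le_mul_of_nonneg_right h1.le hRpos.le
    have hsmall : (m : ℝ) + (t + 1) ≤ (K : ℝ) / 24 := by linarith
    have hmtN : m + (t + 1) ≤ K := by
      have : ((m + (t + 1) : ℕ) : ℝ) ≤ (K : ℝ) := by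
        push_cast
        linarith
      exact_mod_cast this
    have hk'K : ((K - m : ℕ) : ℝ) = (K : ℝ) - m := Nat.cast_sub (by omega)
    rcases Nat.eq_zero_or_pos t with rfl | htpos
    · have := R_step (K - m)
      have h2 : (R (K - m) : ℝ) ≤ R (K - m - 1) + ((K - m : ℕ) : ℝ) := by exact_mod_cast this
      rw [hk'K] at h2
      simp only [Nat.zero_add, Nat.cast_one, sub_self, mul_zero, zero_div, zero_mul, one_mul,
        sub_zero]
      linarith
    -- `R (K - m)` is close to `R K`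
    have hRm : (R K : ℝ) ≤ R (K - m) + m * K := by
      have := R_iter K m (by omega)
      exact_mod_cast this
    have hRm2 : (1 - ε / 24) * R K ≤ R (K - m) := by
      have h2 : 0 ≤ ((t : ℝ) + 1) * K := by positivity
      have : (m : ℝ) * K ≤ (ε / 24) * R K := by linarith
      linarith
    have hRm3 : (R (K - m) : ℝ) ≤ R K := by exact_mod_cast R_mono (by omega : K - m ≤ K)
    have hRm4 : (23 / 24) * (R K : ℝ) ≤ R (K - m) := by linarith
    -- the extremal graph
    have hRm5 : 0 < R (K - m) := by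
      have : (0 : ℝ) < R (K - m) := by linarith
      exact_mod_cast this
    obtain ⟨G, hG⟩ := exists_good (show R (K - m) - 1 < R (K - m) by omega)
    classical
    set δ : ℕ := ⌈(1 - ε / 8) * (K : ℝ)⌉₊ with hδ
    by_cases hcase : ∀ v, δ ≤ (nb G v).card
    · -- all degrees are large
      have hnat1 : t + 1 + 1 ≤ R (K - m) := by
        have : ((t + 1 + 1 : ℕ) : ℝ) ≤ (R (K - m) : ℝ) := by
          push_cast
          linarith
        exact_mod_cast this
      have hnat2 : 4 ≤ R (K - m) := by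
        have : ((4 : ℕ) : ℝ) ≤ (R (K - m) : ℝ) := by
          push_cast
          linarith
        exact_mod_cast this
      have hnat3 : 3 * (K - m - 1) * (t + 1 - 2) ≤ R (K - m) - 1 - 2 := by
        have h4 : 3 * (K - m - 1) * (t + 1 - 2) ≤ 3 * K * (t + 1) :=
          Nat.mul_le_mul (Nat.mul_le_mul_left _ (by omega)) (by omega)
        have h5 : 3 * K * (t + 1) + 3 ≤ R (K - m) := by
          have : ((3 * K * (t + 1) + 3 : ℕ) : ℝ) ≤ (R (K - m) : ℝ) := by
            push_cast
            have h2 : 0 ≤ (m : ℝ) * K := by positivity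
            linarith
          exact_mod_cast this
        omega
      have hw := window_of_mindeg (k := K - m) (t := t + 1) (δ := δ) (by omega) (by omega)
        (by omega) hnat1 hnat2 hnat3 G hG hcase
      rw [hk'K] at hw
      push_cast at hw
      have hδ1 : (1 - ε / 8) * (K : ℝ) ≤ δ := Nat.le_ceil _
      have hδ2 : (1 - ε / 4) * (K : ℝ) ≤ (δ : ℝ) - 1 := by linarith
      have hδ3 : (1 - ε / 4) * (K : ℝ) ≤ δ := by linarith
      have hδ0 : 0 ≤ (1 - ε / 4) * (K : ℝ) := mul_nonneg (by linarith) hKpos.le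
      have hprod : ((1 - ε / 4) * (K : ℝ)) * ((1 - ε / 4) * (K : ℝ)) ≤ (δ : ℝ) * (δ - 1) := by
        apply mul_le_mul hδ3 hδ2 hδ0 (by positivity)
      have hden : (0 : ℝ) < (R (K - m) : ℝ) - 1 := by linarith
      have hfrac : (1 - ε / 4) * (1 - ε / 4) * ((K : ℝ) ^ 2 / R K) ≤
          (δ : ℝ) * (δ - 1) / ((R (K - m) : ℝ) - 1) := by
        rw [le_div_iff₀ hden]
        calc (1 - ε / 4) * (1 - ε / 4) * ((K : ℝ) ^ 2 / R K) * ((R (K - m) : ℝ) - 1)
            ≤ (1 - ε / 4) * (1 - ε / 4) * ((K : ℝ) ^ 2 / R K) * (R K : ℝ) := by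
              apply mul_le_mul_of_nonneg_left (by linarith)
              have : 0 ≤ 1 - ε / 4 := by linarith
              positivity
          _ = ((1 - ε / 4) * (K : ℝ)) * ((1 - ε / 4) * (K : ℝ)) := by
              field_simp
          _ ≤ _ := hprod
      have hden2 : (0 : ℝ) < (R (K - m) : ℝ) - 1 - 2 := by linarith
      have hfac : 1 - ε / 4 ≤
          1 - 3 * ((K : ℝ) - m - 1) * ((t : ℝ) + 1 - 2) / ((R (K - m) : ℝ) - 1 - 2) := by
        have : 3 * ((K : ℝ) - m - 1) * ((t : ℝ) + 1 - 2) / ((R (K - m) : ℝ) - 1 - 2) ≤ ε / 4 := by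
          rw [div_le_iff₀ hden2]
          have h4 : 3 * ((K : ℝ) - m - 1) * ((t : ℝ) + 1 - 2) ≤ 3 * (K : ℝ) * (t + 1) := by
            have ht1 : (1 : ℝ) ≤ t := by exact_mod_cast htpos
            apply mul_le_mul (by linarith) (by linarith) (by linarith) (by positivity)
          have h5 : 3 * (K : ℝ) * (t + 1) ≤ 3 * ((ε / 24) * R K) := by
            have h2 : 0 ≤ (m : ℝ) * K := by positivity
            linarith
          have h6 : (R K : ℝ) / 2 ≤ (R (K - m) : ℝ) - 1 - 2 := by linarith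
          have h7 : ε / 4 * ((R K : ℝ) / 2) ≤ ε / 4 * ((R (K - m) : ℝ) - 1 - 2) :=
            mul_le_mul_of_nonneg_left h6 (by positivity)
          linarith
        linarith
      have hC : (0 : ℝ) ≤ ((t : ℝ) + 1) * ((t : ℝ) + 1 - 1) / 2 := by
        have : (0 : ℝ) ≤ (t : ℝ) + 1 - 1 := by linarith
        positivity
      have hq : (0 : ℝ) ≤ (K : ℝ) ^ 2 / R K := by positivity
      have h8 : (1 - ε / 4) * (1 - ε / 4) * ((K : ℝ) ^ 2 / R K) * (1 - ε / 4) ≤
          (δ : ℝ) * (δ - 1) / ((R (K - m) : ℝ) - 1) *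
          (1 - 3 * ((K : ℝ) - m - 1) * ((t : ℝ) + 1 - 2) / ((R (K - m) : ℝ) - 1 - 2)) := by
        have h9 : (0 : ℝ) ≤ 1 - ε / 4 := by linarith
        apply mul_le_mul hfrac hfac h9
        exact le_trans (by positivity) hfrac
      have h10 : (1 - ε) * ((K : ℝ) ^ 2 / R K) ≤
          (1 - ε / 4) * (1 - ε / 4) * ((K : ℝ) ^ 2 / R K) * (1 - ε / 4) := by
        have : (1 - ε) ≤ (1 - ε / 4) * (1 - ε / 4) * (1 - ε / 4) := by
          have e : (1 - ε / 4) * (1 - ε / 4) * (1 - ε / 4) - (1 - ε) =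
              ε * (1 / 4) + ε ^ 2 * (3 / 16 - ε / 64) := by ring
          have : 0 ≤ ε * (1 / 4) + ε ^ 2 * (3 / 16 - ε / 64) := by
            have : 0 ≤ 3 / 16 - ε / 64 := by linarith
            positivity
          linarith
        calc (1 - ε) * ((K : ℝ) ^ 2 / R K)
            ≤ ((1 - ε / 4) * (1 - ε / 4) * (1 - ε / 4)) * ((K : ℝ) ^ 2 / R K) :=
              mul_le_mul_of_nonneg_right this hq
          _ = _ := by ring
      have h11 := mul_le_mul_of_nonneg_left (h10.trans h8) hC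
      have h12 : 0 ≤ ((t : ℝ) + 1) * m := by positivity
      push_cast
      linarith
    · -- a vertex of small degree
      push Not at hcase
      obtain ⟨v, hv⟩ := hcase
      have hv2 : ((nb G v).card : ℝ) < (1 - ε / 8) * (K : ℝ) := Nat.lt_ceil.1 hv
      have h2 := step_of_deg G hG v
      have h3 : (R (K - m) : ℝ) ≤ R (K - m - 1) + 1 + (nb G v).card := by exact_mod_cast h2
      have h4 := ih (m + 1) (by push_cast; linarith)
      rw [show K - (m + 1) = K - m - 1 by omega,
        show K - m - 1 - t = K - m - (t + 1) by omega] at h4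
      have hkey : (1 - ε) * (t : ℝ) * ((K : ℝ) ^ 2 / R K) ≤ (ε / 8) * K - 1 := by
        have h5 : (t : ℝ) * ((K : ℝ) ^ 2 / R K) ≤ (ε / 24) * K := by
          rw [← mul_div_assoc, div_le_iff₀ hRpos]
          have h2 : 0 ≤ ((m : ℝ) + 1) * K := by positivity
          have : (t : ℝ) * K ≤ (ε / 24) * R K := by linarith
          have h7 := mul_le_mul_of_nonneg_right this hKpos.le
          calc (t : ℝ) * (K : ℝ) ^ 2 = (t : ℝ) * K * K := by ring
            _ ≤ (ε / 24) * R K * K := h7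
            _ = (ε / 24) * K * R K := by ring
        have h6 : (0 : ℝ) ≤ (t : ℝ) * ((K : ℝ) ^ 2 / R K) := by positivity
        have h7 : 0 ≤ ε * ((t : ℝ) * ((K : ℝ) ^ 2 / R K)) := mul_nonneg h0.le h6
        linarith
      push_cast
      linarith

/-- The deficit of `t` consecutive differences. -/
theorem main1 (ε : ℝ) (h0 : 0 < ε) (h1 : ε < 1) :
    ∃ η : ℝ, 0 < η ∧ ∃ k₀ : ℕ, ∀ k : ℕ, k₀ ≤ k → ∀ t : ℕ, (t : ℝ) ≤ η * R k / k →
      (R k : ℝ) - R (k - t) ≤ t * k - (1 - ε) * ((t : ℝ) * (t - 1) / 2) * ((k : ℝ) ^ 2 / R k) := by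
  refine ⟨ε / 24, by positivity, ⌈100 / ε⌉₊, fun k hk t ht => ?_⟩
  have h2 := core h0 h1 k ((Nat.le_ceil _).trans (by exact_mod_cast hk)) t 0 (by simpa using ht)
  simp only [Nat.sub_zero] at h2
  linarith

end Pool.Agent.H94.Ram
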