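import Mathlib

/-!
# The hard-core model on triangle-free graphs

A lower bound for the independence number of a triangle-free graph of bounded maximum degree.
-/

set_option autoImplicit false

namespace Pool.Agent.H94.Ram

open Finset

section powerset

variable {V : Type*} [DecidableEq V]

lemma sum_pow_powerset (l : ℝ) (X : Finset V) :
    ∑ T ∈ X.powerset, l ^ T.card = (1 + l) ^ X.card := by
  induction X using Finset.induction_on with
  | empty => simp
  | insert a X ha ih =>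
    rw [Finset.sum_powerset_insert ha, ih, Finset.card_insert_of_notMem ha, pow_succ]
    have : ∑ T ∈ X.powerset, l ^ (insert a T).card = l * ∑ T ∈ X.powerset, l ^ T.card := by
      rw [Finset.mul_sum]
      refine Finset.sum_congr rfl fun T hT => ?_
      rw [Finset.card_insert_of_notMem (fun h => ha (Finset.mem_powerset.1 hT h)), pow_succ]
      ring
    rw [this, ih]
    ring

lemma sum_card_pow_powerset (l : ℝ) (X : Finset V) :
    (1 + l) * ∑ T ∈ X.powerset, (T.card : ℝ) * l ^ T.card = X.card * l * (1 + l) ^ X.card := by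
  induction X using Finset.induction_on with
  | empty => simp
  | insert a X ha ih =>
    rw [Finset.sum_powerset_insert ha, mul_add, ih, Finset.card_insert_of_notMem ha, pow_succ]
    have : ∑ T ∈ X.powerset, ((insert a T).card : ℝ) * l ^ (insert a T).card =
        l * (∑ T ∈ X.powerset, (T.card : ℝ) * l ^ T.card) + l * ∑ T ∈ X.powerset, l ^ T.card := by
      rw [Finset.mul_sum, Finset.mul_sum, ← Finset.sum_add_distrib]
      refine Finset.sum_congr rfl fun T hT => ?_
      rw [Finset.card_insert_of_notMem (fun h => ha (Finset.mem_powerset.1 hT h)), pow_succ]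
      push_cast
      ring
    rw [this, sum_pow_powerset, mul_add]
    have e : (1 + l) * (l * ∑ T ∈ X.powerset, (T.card : ℝ) * l ^ T.card) =
        l * ((1 + l) * ∑ T ∈ X.powerset, (T.card : ℝ) * l ^ T.card) := by ring
    rw [e, ih]
    push_cast
    ring

end powerset

section hardcore

variable {V : Type*} [Fintype V] [DecidableEq V] (G : SimpleGraph V) [DecidableRel G.Adj]

/-- the independent sets -/
def IndS : Finset (Finset V) := univ.filter (fun W => ∀ x ∈ W, ∀ y ∈ W, ¬ G.Adj x y)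

/-- neighbours -/
def nbh (v : V) : Finset V := univ.filter (fun u => G.Adj v u)

/-- the traces outside of the closed neighbourhood of `v` -/
def Jv (v : V) : Finset (Finset V) :=
  (IndS G).filter (fun J => v ∉ J ∧ Disjoint J (nbh G v))

/-- the neighbours of `v` without a neighbour in `J` -/
def Xv (v : V) (J : Finset V) : Finset V := (nbh G v).filter (fun u => ∀ w ∈ J, ¬ G.Adj u w)

variable {G}

lemma mem_IndS {W : Finset V} : W ∈ IndS G ↔ ∀ x ∈ W, ∀ y ∈ W, ¬ G.Adj x y := by
  simp [IndS]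

omit [DecidableEq V] in
lemma mem_nbh {v u : V} : u ∈ nbh G v ↔ G.Adj v u := by simp [nbh]

lemma mem_Jv {v : V} {J : Finset V} :
    J ∈ Jv G v ↔ (∀ x ∈ J, ∀ y ∈ J, ¬ G.Adj x y) ∧ v ∉ J ∧ Disjoint J (nbh G v) := by
  simp [Jv, mem_IndS]

lemma mem_Xv {v u : V} {J : Finset V} :
    u ∈ Xv G v J ↔ G.Adj v u ∧ ∀ w ∈ J, ¬ G.Adj u w := by
  simp [Xv, mem_nbh]

/-- the independent sets containing `v` -/
lemma sum_mem (v : V) (F : Finset V → ℝ) :
    ∑ W ∈ (IndS G).filter (fun W => v ∈ W), F W = ∑ J ∈ Jv G v, F (insert v J) := by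
  refine Finset.sum_bij' (fun W _ => W.erase v) (fun J _ => insert v J) ?_ ?_ ?_ ?_ ?_
  · intro W hW
    rw [Finset.mem_filter, mem_IndS] at hW
    rw [mem_Jv]
    refine ⟨fun x hx y hy => hW.1 x (Finset.mem_of_mem_erase hx) y (Finset.mem_of_mem_erase hy),
      Finset.notMem_erase v W, ?_⟩
    rw [Finset.disjoint_left]
    intro x hx hx2
    exact hW.1 v hW.2 x (Finset.mem_of_mem_erase hx) (mem_nbh.1 hx2)
  · intro J hJ
    rw [mem_Jv] at hJ
    rw [Finset.mem_filter, mem_IndS]
    refine ⟨fun x hx y hy => ?_, Finset.mem_insert_self v J⟩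
    rcases Finset.mem_insert.1 hx with hx1 | hx1 <;>
      rcases Finset.mem_insert.1 hy with hy1 | hy1
    · rw [hx1, hy1]
      exact G.loopless.irrefl _
    · rw [hx1]
      intro h
      exact Finset.disjoint_left.1 hJ.2.2 hy1 (mem_nbh.2 h)
    · rw [hy1]
      intro h
      exact Finset.disjoint_left.1 hJ.2.2 hx1 (mem_nbh.2 h.symm)
    · exact hJ.1 x hx1 y hy1
  · intro W hW
    rw [Finset.mem_filter] at hW
    exact Finset.insert_erase hW.2
  · intro J hJ
    rw [mem_Jv] at hJ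
    exact Finset.erase_insert hJ.2.1
  · intro W hW
    rw [Finset.mem_filter] at hW
    rw [Finset.insert_erase hW.2]

/-- the independent sets not containing `v` -/
lemma sum_notMem (hT : ∀ a b c, G.Adj a b → G.Adj b c → G.Adj a c → False) (v : V)
    (F : Finset V → ℝ) :
    ∑ W ∈ (IndS G).filter (fun W => v ∉ W), F W =
      ∑ J ∈ Jv G v, ∑ T ∈ (Xv G v J).powerset, F (J ∪ T) := by
  rw [Finset.sum_sigma']
  refine Finset.sum_bij'
    (fun W _ => (⟨W \ nbh G v, W ∩ nbh G v⟩ : (_ : Finset V) × Finset V))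
    (fun p _ => p.1 ∪ p.2) ?_ ?_ ?_ ?_ ?_
  · intro W hW
    rw [Finset.mem_filter, mem_IndS] at hW
    rw [Finset.mem_sigma, mem_Jv, Finset.mem_powerset]
    refine ⟨⟨fun x hx y hy => hW.1 x (Finset.mem_sdiff.1 hx).1 y (Finset.mem_sdiff.1 hy).1,
      fun h => hW.2 (Finset.mem_sdiff.1 h).1, Finset.sdiff_disjoint⟩, fun u hu => ?_⟩
    rw [Finset.mem_inter, mem_nbh] at hu
    rw [mem_Xv]
    exact ⟨hu.2, fun w hw => hW.1 u hu.1 w (Finset.mem_sdiff.1 hw).1⟩
  · rintro ⟨J, T⟩ hp
    rw [Finset.mem_sigma, mem_Jv, Finset.mem_powerset] at hp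
    obtain ⟨⟨h1, h2, h3⟩, h4⟩ := hp
    rw [Finset.mem_filter, mem_IndS]
    refine ⟨fun x hx y hy => ?_, fun h => ?_⟩
    · rcases Finset.mem_union.1 hx with hx | hx <;> rcases Finset.mem_union.1 hy with hy | hy
      · exact h1 x hx y hy
      · intro h
        exact (mem_Xv.1 (h4 hy)).2 x hx h.symm
      · exact (mem_Xv.1 (h4 hx)).2 y hy
      · intro h
        exact hT v x y (mem_Xv.1 (h4 hx)).1 h (mem_Xv.1 (h4 hy)).1
    · rcases Finset.mem_union.1 h with h | h
      · exact h2 h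
      · exact G.loopless.irrefl _ (mem_Xv.1 (h4 h)).1
  · intro W hW
    exact Finset.sdiff_union_inter W _
  · rintro ⟨J, T⟩ hp
    rw [Finset.mem_sigma, mem_Jv, Finset.mem_powerset] at hp
    obtain ⟨⟨h1, h2, h3⟩, h4⟩ := hp
    have hT2 : T ⊆ nbh G v := fun u hu => mem_nbh.2 (mem_Xv.1 (h4 hu)).1
    simp only
    have e1 : (J ∪ T) \ nbh G v = J := by
      rw [Finset.union_sdiff_distrib, Finset.sdiff_eq_self_of_disjoint h3,
        Finset.sdiff_eq_empty_iff_subset.2 hT2, Finset.union_empty]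
    have e2 : (J ∪ T) ∩ nbh G v = T := by
      rw [Finset.union_inter_distrib_right, Finset.disjoint_iff_inter_eq_empty.1 h3,
        Finset.empty_union, Finset.inter_eq_left.2 hT2]
    rw [e1, e2]
  · intro W hW
    simp only
    rw [Finset.sdiff_union_inter W _]

/-- the local inequality -/
lemma local_ineq (hT : ∀ a b c, G.Adj a b → G.Adj b c → G.Adj a c → False) (v : V)
    (l A B : ℝ) (hl : 0 < l)
    (hAB : ∀ x : ℕ, l + (1 + l) ^ x ≤ A * l + B * (l / (1 + l)) * x * (1 + l) ^ x) :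
    ∑ W ∈ IndS G, l ^ W.card ≤ A * ∑ W ∈ (IndS G).filter (fun W => v ∈ W), l ^ W.card +
      B * ∑ W ∈ IndS G, ((W ∩ nbh G v).card : ℝ) * l ^ W.card := by
  have hl1 : (1 + l) ≠ 0 := by positivity
  have e1 := Finset.sum_filter_add_sum_filter_not (IndS G) (fun W => v ∈ W)
    (fun W => l ^ W.card)
  have e2 := Finset.sum_filter_add_sum_filter_not (IndS G) (fun W => v ∈ W)
    (fun W => ((W ∩ nbh G v).card : ℝ) * l ^ W.card)
  rw [← e1, ← e2, sum_mem, sum_notMem hT, sum_mem, sum_notMem hT]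
  have h1 : ∀ J ∈ Jv G v, ((insert v J) ∩ nbh G v).card = 0 := by
    intro J hJ
    rw [mem_Jv] at hJ
    rw [Finset.card_eq_zero, Finset.insert_inter_of_notMem,
      Finset.disjoint_iff_inter_eq_empty.1 hJ.2.2]
    rw [mem_nbh]
    exact G.loopless.irrefl _
  have h2 : ∀ J ∈ Jv G v, (insert v J).card = J.card + 1 := by
    intro J hJ
    rw [mem_Jv] at hJ
    exact Finset.card_insert_of_notMem hJ.2.1
  have h3 : ∀ J ∈ Jv G v, ∀ T ∈ (Xv G v J).powerset, (J ∪ T).card = J.card + T.card ∧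
      (J ∪ T) ∩ nbh G v = T := by
    intro J hJ T hT'
    rw [mem_Jv] at hJ
    rw [Finset.mem_powerset] at hT'
    have hT2 : T ⊆ nbh G v := fun u hu => mem_nbh.2 (mem_Xv.1 (hT' hu)).1
    refine ⟨Finset.card_union_of_disjoint (Finset.disjoint_of_subset_right hT2 hJ.2.2), ?_⟩
    rw [Finset.union_inter_distrib_right, Finset.disjoint_iff_inter_eq_empty.1 hJ.2.2,
      Finset.empty_union, Finset.inter_eq_left.2 hT2]
  have s1 : ∑ J ∈ Jv G v, l ^ (insert v J).card = ∑ J ∈ Jv G v, l ^ J.card * l :=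
    Finset.sum_congr rfl fun J hJ => by rw [h2 J hJ, pow_succ]
  have s2 : ∑ J ∈ Jv G v, ∑ T ∈ (Xv G v J).powerset, l ^ (J ∪ T).card =
      ∑ J ∈ Jv G v, l ^ J.card * (1 + l) ^ (Xv G v J).card := by
    refine Finset.sum_congr rfl fun J hJ => ?_
    rw [← sum_pow_powerset, Finset.mul_sum]
    refine Finset.sum_congr rfl fun T hT' => ?_
    rw [(h3 J hJ T hT').1, pow_add]
  have s3 : ∑ J ∈ Jv G v, ((insert v J ∩ nbh G v).card : ℝ) * l ^ (insert v J).card = 0 := by
    refine Finset.sum_eq_zero fun J hJ => ?_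
    rw [h1 J hJ]
    simp
  have s4 : ∑ J ∈ Jv G v, ∑ T ∈ (Xv G v J).powerset,
      (((J ∪ T) ∩ nbh G v).card : ℝ) * l ^ (J ∪ T).card =
      ∑ J ∈ Jv G v, l ^ J.card * ((l / (1 + l)) * (Xv G v J).card *
        (1 + l) ^ (Xv G v J).card) := by
    refine Finset.sum_congr rfl fun J hJ => ?_
    have e3 : (l / (1 + l)) * (Xv G v J).card * (1 + l) ^ (Xv G v J).card =
        ∑ T ∈ (Xv G v J).powerset, (T.card : ℝ) * l ^ T.card := by
      have := sum_card_pow_powerset l (Xv G v J)
      field_simp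
      linarith
    rw [e3, Finset.mul_sum]
    refine Finset.sum_congr rfl fun T hT' => ?_
    rw [(h3 J hJ T hT').2, (h3 J hJ T hT').1, pow_add]
    ring
  rw [s1, s2, s3, s4, zero_add, Finset.mul_sum, Finset.mul_sum, ← Finset.sum_add_distrib,
    ← Finset.sum_add_distrib]
  refine Finset.sum_le_sum fun J _ => ?_
  have h5 := mul_le_mul_of_nonneg_left (hAB (Xv G v J).card) (pow_nonneg hl.le J.card)
  nlinarith

/-- The lower bound for the independence number. -/
theorem hardcore_bound (hT : ∀ a b c, G.Adj a b → G.Adj b c → G.Adj a c → False)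
    (a D : ℕ) (ha : ∀ W : Finset V, (∀ x ∈ W, ∀ y ∈ W, ¬ G.Adj x y) → W.card ≤ a)
    (hD : ∀ v, (nbh G v).card ≤ D) (l A B : ℝ) (hl : 0 < l) (hA : 0 ≤ A) (hB : 0 ≤ B)
    (hAB : ∀ x : ℕ, l + (1 + l) ^ x ≤ A * l + B * (l / (1 + l)) * x * (1 + l) ^ x) :
    (Fintype.card V : ℝ) ≤ (A + B * D) * a := by
  set Z : ℝ := ∑ W ∈ IndS G, l ^ W.card with hZ
  have hZpos : 0 < Z := by
    apply Finset.sum_pos (fun W _ => pow_pos hl _)
    exact ⟨∅, mem_IndS.2 (by simp)⟩
  have h1 : ∑ _v : V, Z ≤ ∑ v : V, (A * ∑ W ∈ (IndS G).filter (fun W => v ∈ W), l ^ W.card +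
      B * ∑ W ∈ IndS G, ((W ∩ nbh G v).card : ℝ) * l ^ W.card) :=
    Finset.sum_le_sum fun v _ => local_ineq hT v l A B hl hAB
  rw [Finset.sum_const, Finset.card_univ, nsmul_eq_mul, Finset.sum_add_distrib,
    ← Finset.mul_sum, ← Finset.mul_sum] at h1
  have h2 : ∑ v : V, ∑ W ∈ (IndS G).filter (fun W => v ∈ W), l ^ W.card =
      ∑ W ∈ IndS G, (W.card : ℝ) * l ^ W.card := by
    have : ∀ v : V, ∑ W ∈ (IndS G).filter (fun W => v ∈ W), l ^ W.card =
        ∑ W ∈ IndS G, if v ∈ W then l ^ W.card else 0 := fun v => Finset.sum_filter _ _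
    rw [Finset.sum_congr rfl fun v _ => this v, Finset.sum_comm]
    refine Finset.sum_congr rfl fun W _ => ?_
    rw [← Finset.sum_filter, Finset.sum_const, nsmul_eq_mul]
    congr 2
    congr 1
    ext v
    simp
  have h3 : ∑ v : V, ∑ W ∈ IndS G, ((W ∩ nbh G v).card : ℝ) * l ^ W.card ≤
      ∑ W ∈ IndS G, (W.card : ℝ) * D * l ^ W.card := by
    rw [Finset.sum_comm]
    refine Finset.sum_le_sum fun W _ => ?_
    rw [← Finset.sum_mul]
    apply mul_le_mul_of_nonneg_right _ (pow_nonneg hl.le _)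
    have h4 : ∑ v : V, (W ∩ nbh G v).card = ∑ u ∈ W, (nbh G u).card := by
      have e1 : ∀ v : V, (W ∩ nbh G v).card = ∑ u ∈ W, if G.Adj v u then 1 else 0 := by
        intro v
        rw [← Finset.sum_filter, Finset.sum_const, smul_eq_mul, mul_one]
        congr 1
        ext u
        simp [mem_nbh]
      have e2 : ∀ u : V, (nbh G u).card = ∑ v : V, if G.Adj v u then 1 else 0 := by
        intro u
        rw [← Finset.sum_filter, Finset.sum_const, smul_eq_mul, mul_one]
        congr 1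
        ext v
        simp [mem_nbh, G.adj_comm]
      rw [Finset.sum_congr rfl fun v _ => e1 v, Finset.sum_comm,
        Finset.sum_congr rfl fun u _ => e2 u]
    have h5 : ∑ u ∈ W, (nbh G u).card ≤ W.card * D := by
      calc ∑ u ∈ W, (nbh G u).card ≤ ∑ _u ∈ W, D := Finset.sum_le_sum fun u _ => hD u
        _ = W.card * D := by rw [Finset.sum_const, smul_eq_mul]
    rw [← h4] at h5
    exact_mod_cast h5
  rw [h2] at h1
  have h4 : ∑ W ∈ IndS G, (W.card : ℝ) * l ^ W.card ≤ a * Z := by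
    rw [hZ, Finset.mul_sum]
    refine Finset.sum_le_sum fun W hW => ?_
    apply mul_le_mul_of_nonneg_right _ (pow_nonneg hl.le _)
    exact_mod_cast ha W (mem_IndS.1 hW)
  have h5 : ∑ W ∈ IndS G, (W.card : ℝ) * D * l ^ W.card ≤ a * D * Z := by
    rw [hZ, Finset.mul_sum]
    refine Finset.sum_le_sum fun W hW => ?_
    apply mul_le_mul_of_nonneg_right _ (pow_nonneg hl.le _)
    have := ha W (mem_IndS.1 hW)
    exact_mod_cast Nat.mul_le_mul_right D this
  have h6 : (Fintype.card V : ℝ) * Z ≤ ((A + B * D) * a) * Z := by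
    have f1 := mul_le_mul_of_nonneg_left h4 hA
    have f2 := mul_le_mul_of_nonneg_left (h3.trans h5) hB
    calc (Fintype.card V : ℝ) * Z ≤ _ := h1
      _ ≤ A * (a * Z) + B * (a * D * Z) := add_le_add f1 f2
      _ = _ := by ring
  exact le_of_mul_le_mul_right h6 hZpos

/-- with explicit parameters -/
theorem hardcore_bound2 (hT : ∀ a b c, G.Adj a b → G.Adj b c → G.Adj a c → False)
    (a D : ℕ) (ha : ∀ W : Finset V, (∀ x ∈ W, ∀ y ∈ W, ¬ G.Adj x y) → W.card ≤ a)
    (hD : ∀ v, (nbh G v).card ≤ D) (l B : ℝ) (hl : 0 < l) (hB : 0 < B) :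
    (Fintype.card V : ℝ) ≤ (1 + Real.exp ((1 + l) / B) / l + B * D) * a := by
  apply hardcore_bound hT a D ha hD l _ B hl (by positivity) hB.le
  intro x
  have hl1 : 0 < 1 + l := by linarith
  have e : (1 + Real.exp ((1 + l) / B) / l) * l = l + Real.exp ((1 + l) / B) := by
    field_simp
  rw [e]
  have hp : 0 < (1 + l) ^ x := by positivity
  rcases le_or_gt 1 (B * (l / (1 + l)) * x) with h | h
  · have h1 := mul_le_mul_of_nonneg_right h hp.le
    have h2 := Real.exp_pos ((1 + l) / B)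
    linarith
  · have h1 : l * x ≤ (1 + l) / B := by
      rw [le_div_iff₀ hB]
      have : B * (l / (1 + l)) * x = (l * x * B) / (1 + l) := by ring
      rw [this, div_lt_one hl1] at h
      exact h.le
    have h2 : (1 + l) ^ x ≤ Real.exp ((1 + l) / B) := by
      calc (1 + l) ^ x ≤ (Real.exp l) ^ x := by
            apply pow_le_pow_left₀ hl1.le
            linarith [Real.add_one_le_exp l]
        _ = Real.exp (l * x) := by rw [← Real.exp_nat_mul]; ring_nf
        _ ≤ _ := Real.exp_le_exp.2 h1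
    have h3 : 0 ≤ B * (l / (1 + l)) * x * (1 + l) ^ x := by positivity
    linarith

end hardcore

end Pool.Agent.H94.Ram
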