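import Pool.Agent.H94.Ram.Main1
import Pool.Agent.H94.Ram.Shear

/-!
# The deficit of `t` consecutive differences is at least `(1 - ε) C(t,2) log k`
-/

set_option autoImplicit false

namespace Pool.Agent.H94.Ram

open Finset Filter
open Pool.Agent.H41.RamseyStep (Good R R_spec exists_good Good.card_lt R_pos)

/-- the bound of the hard-core model -/
lemma R_le_hardcore (k : ℕ) (l B : ℝ) (hl : 0 < l) (hB : 0 < B) :
    (R k : ℝ) ≤ 1 + (1 + Real.exp ((1 + l) / B) / l + B * k) * k := by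
  classical
  have hnn : (0 : ℝ) ≤ (1 + Real.exp ((1 + l) / B) / l + B * k) * k := by positivity
  rcases Nat.eq_zero_or_pos (R k) with h | h
  · rw [h]
    push_cast
    linarith
  obtain ⟨G, hG⟩ := exists_good (show R k - 1 < R k by omega)
  have h1 := hardcore_bound2 (G := G) hG.1 k k (fun W hW => (hG.2 W hW).le)
    (fun v => ((good_deg hG v).le : (nbh G v).card ≤ k)) l B hl hB
  rw [Fintype.card_fin, Nat.cast_sub (by omega), Nat.cast_one] at h1
  linarith

/-- Shearer's bound for `R(3,k)` -/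
theorem R_upper (ε : ℝ) (h0 : 0 < ε) (h1 : ε < 1) :
    ∃ k₀ : ℕ, ∀ k : ℕ, k₀ ≤ k → (R k : ℝ) * Real.log k ≤ (1 + ε) * (k : ℝ) ^ 2 := by
  set θ : ℝ := (1 + ε / 4) / (1 + ε / 2) with hθ
  have hθ1 : θ < 1 := by
    rw [hθ, div_lt_one (by linarith)]
    linarith
  have hθ0 : 0 < θ := by positivity
  have hlo := (isLittleO_log_rpow_atTop (show 0 < 1 - θ by linarith)).def
    (show 0 < ε ^ 2 / 16 by positivity)
  have hlo2 := (isLittleO_log_rpow_atTop (show (0 : ℝ) < 1 by norm_num)).def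
    (show 0 < ε / 16 by positivity)
  have hev := ((hlo.and hlo2).and (eventually_ge_atTop (3 : ℝ)))
  have hev2 := (tendsto_natCast_atTop_atTop (R := ℝ)).eventually hev
  obtain ⟨k₀, hk₀⟩ := eventually_atTop.1 hev2
  refine ⟨k₀, fun k hk => ?_⟩
  obtain ⟨⟨a1, a2⟩, a3⟩ := hk₀ k hk
  have hk0 : (0 : ℝ) < k := by linarith
  have hL1 : 1 ≤ Real.log k := by
    rw [Real.le_log_iff_exp_le hk0]
    have := Real.exp_one_lt_d9
    linarith
  set L : ℝ := Real.log k with hL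
  have hL0 : 0 < L := by linarith
  rw [Real.norm_of_nonneg hL0.le, Real.norm_of_nonneg (Real.rpow_nonneg hk0.le _)] at a1 a2
  rw [Real.rpow_one] at a2
  have a4 : L * (k : ℝ) ^ θ ≤ ε ^ 2 / 16 * k := by
    calc L * (k : ℝ) ^ θ ≤ (ε ^ 2 / 16 * (k : ℝ) ^ (1 - θ)) * (k : ℝ) ^ θ :=
          mul_le_mul_of_nonneg_right a1 (Real.rpow_nonneg hk0.le _)
      _ = ε ^ 2 / 16 * ((k : ℝ) ^ (1 - θ) * (k : ℝ) ^ θ) := by ring
      _ = ε ^ 2 / 16 * k := by
          rw [← Real.rpow_add hk0]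
          norm_num
  have hb := R_le_hardcore k (ε / 4) ((1 + ε / 2) / L) (by positivity) (by positivity)
  have e1 : (1 + ε / 4) / ((1 + ε / 2) / L) = L * θ := by
    rw [hθ]
    field_simp
  have e2 : Real.exp (L * θ) = (k : ℝ) ^ θ := by
    rw [Real.rpow_def_of_pos hk0]
  rw [e1, e2] at hb
  have hb2 := mul_le_mul_of_nonneg_right hb hL0.le
  have e3 : (1 + (1 + (k : ℝ) ^ θ / (ε / 4) + (1 + ε / 2) / L * k) * k) * L =
      L + L * k + (4 / ε) * (L * (k : ℝ) ^ θ) * k + (1 + ε / 2) * (k : ℝ) ^ 2 := by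
    field_simp
    ring
  rw [e3] at hb2
  have e4 : (4 / ε) * (L * (k : ℝ) ^ θ) * k ≤ (ε / 4) * (k : ℝ) ^ 2 := by
    calc (4 / ε) * (L * (k : ℝ) ^ θ) * k ≤ (4 / ε) * (ε ^ 2 / 16 * k) * k := by gcongr
      _ = (ε / 4) * (k : ℝ) ^ 2 := by field_simp; ring
  have e5 : L + L * k ≤ (ε / 8) * (k : ℝ) ^ 2 := by
    have f1 : L ≤ L * k := by nlinarith
    have f2 : L * k ≤ (ε / 16 * k) * k := mul_le_mul_of_nonneg_right a2 hk0.le
    nlinarith
  have e6 : 0 ≤ ε * (k : ℝ) ^ 2 := by positivity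
  nlinarith

/-- the pair case without a condition -/
lemma pair_gain (η : ℝ) (hη : 0 < η) (hη1 : η ≤ 1) (k : ℕ) (hk : 8 ≤ k)
    (hR : (R k : ℝ) * η ≤ 2 * k) : (R k : ℝ) ≤ R (k - 2) + 2 * k - η * k / 16 := by
  classical
  have hkR : (8 : ℝ) ≤ k := by exact_mod_cast hk
  have hle := le_R k
  have hleR : (k : ℝ) ≤ R k := by exact_mod_cast hle
  obtain ⟨G, hG⟩ := exists_good (show R k - 1 < R k by omega)
  set δ : ℕ := ⌈(k : ℝ) / 2⌉₊ with hδ
  by_cases hcase : ∀ v, δ ≤ (nb G v).card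
  · have hw := window_of_mindeg (k := k) (t := 2) (δ := δ) (by omega) le_rfl (by omega)
      (by omega) (by omega) (by simp) G hG hcase
    have hδ1 : (k : ℝ) / 2 ≤ δ := Nat.le_ceil _
    have e1 : ((2 : ℕ) : ℝ) * (((2 : ℕ) : ℝ) - 1) / 2 = 1 := by norm_num
    have e2 : (1 - 3 * ((k : ℝ) - 1) * (((2 : ℕ) : ℝ) - 2) / ((R k : ℝ) - 1 - 2)) = 1 := by
      norm_num
    rw [e1, e2, mul_one, one_mul] at hw
    have hden : (0 : ℝ) < (R k : ℝ) - 1 := by linarith
    have h3 : η * k / 16 ≤ (δ : ℝ) * (δ - 1) / ((R k : ℝ) - 1) := by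
      rw [le_div_iff₀ hden]
      have h4 : ((k : ℝ) / 2) * ((k : ℝ) / 4) ≤ (δ : ℝ) * (δ - 1) := by
        apply mul_le_mul hδ1 (by linarith) (by positivity) (by positivity)
      have h5 : η * k / 16 * ((R k : ℝ) - 1) ≤ (k : ℝ) / 16 * (2 * k) := by
        calc η * k / 16 * ((R k : ℝ) - 1) ≤ η * k / 16 * (R k : ℝ) := by
              apply mul_le_mul_of_nonneg_left _ (by positivity)
              linarith
          _ = (k : ℝ) / 16 * ((R k : ℝ) * η) := by ring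
          _ ≤ (k : ℝ) / 16 * (2 * k) := mul_le_mul_of_nonneg_left hR (by positivity)
      nlinarith
    push_cast at hw
    linarith
  · push Not at hcase
    obtain ⟨v, hv⟩ := hcase
    have hv2 : ((nb G v).card : ℝ) < (k : ℝ) / 2 := Nat.lt_ceil.1 hv
    have h2 := step_of_deg G hG v
    have h2' := R_step (k - 1)
    rw [show k - 1 - 1 = k - 2 by omega] at h2'
    have h3 : (R k : ℝ) ≤ R (k - 2) + k + (nb G v).card := by
      have : R k ≤ R (k - 2) + k + (nb G v).card := by omega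
      exact_mod_cast this
    have : η * k / 16 ≤ k / 16 := by
      have := mul_le_mul_of_nonneg_right hη1 hk0'
      linarith
    linarith
where
  hk0' : (0 : ℝ) ≤ (k : ℝ) := Nat.cast_nonneg k

/-- The window inequality. -/
theorem main2 (ε : ℝ) (h0 : 0 < ε) (h1 : ε < 1) :
    ∃ c : ℝ, 0 < c ∧ ∃ k₀ : ℕ, ∀ k : ℕ, k₀ ≤ k → ∀ t : ℕ,
      ((t : ℝ) * k ≤ c * R k ∨ (t : ℝ) ^ 2 * Real.log k ≤ c * k) →
      (R k : ℝ) - R (k - t) ≤ t * k - (1 - ε) * ((t : ℝ) * (t - 1) / 2) * Real.log k := by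
  obtain ⟨η₀, hη₀, k₁, H1⟩ := main1 (ε / 4) (by positivity) (by linarith)
  obtain ⟨k₂, H2⟩ := R_upper (ε / 4) (by positivity) (by linarith)
  set η : ℝ := min η₀ 1 with hηdef
  have hη : 0 < η := lt_min hη₀ one_pos
  have hη1 : η ≤ 1 := min_le_right _ _
  have hηη : η ≤ η₀ := min_le_left _ _
  refine ⟨η ^ 2 / 8, by positivity, max 8 (max k₁ k₂), fun k hk t ht => ?_⟩
  have hk8 : 8 ≤ k := (le_max_left _ _).trans hk
  have hk1 : k₁ ≤ k := ((le_max_left _ _).trans (le_max_right _ _)).trans hk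
  have hk2 : k₂ ≤ k := ((le_max_right _ _).trans (le_max_right _ _)).trans hk
  have hkR : (8 : ℝ) ≤ k := by exact_mod_cast hk8
  have hk0 : (0 : ℝ) < k := by linarith
  have hleR : (k : ℝ) ≤ R k := by exact_mod_cast le_R k
  have hR0 : (0 : ℝ) < R k := by linarith
  have hL0 : 0 ≤ Real.log k := Real.log_nonneg (by linarith)
  have hSh := H2 k hk2
  -- block inequality in the logarithmic form
  have hblock : ∀ s : ℕ, (s : ℝ) * k ≤ η * R k →
      (R k : ℝ) - R (k - s) ≤ s * k - (1 - ε) * ((s : ℝ) * (s - 1) / 2) * Real.log k := by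
    intro s hs
    have h3 := H1 k hk1 s (by
      rw [le_div_iff₀ hk0]
      exact hs.trans (mul_le_mul_of_nonneg_right hηη hR0.le))
    have h4 : (1 - ε) * Real.log k ≤ (1 - ε / 4) * ((k : ℝ) ^ 2 / R k) := by
      rw [← mul_div_assoc, le_div_iff₀ hR0]
      calc (1 - ε) * Real.log k * R k = (1 - ε) * (R k * Real.log k) := by ring
        _ ≤ (1 - ε) * ((1 + ε / 4) * (k : ℝ) ^ 2) :=
            mul_le_mul_of_nonneg_left hSh (by linarith)
        _ ≤ (1 - ε / 4) * (k : ℝ) ^ 2 := by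
            have : (1 - ε) * (1 + ε / 4) ≤ 1 - ε / 4 := by nlinarith
            have h5 := mul_le_mul_of_nonneg_right this (sq_nonneg (k : ℝ))
            linarith
    have hC : (0 : ℝ) ≤ (s : ℝ) * (s - 1) / 2 := by
      rcases Nat.eq_zero_or_pos s with rfl | hs0
      · simp
      · have : (1 : ℝ) ≤ s := by exact_mod_cast hs0
        have : (0 : ℝ) ≤ (s : ℝ) - 1 := by linarith
        positivity
    have h5 := mul_le_mul_of_nonneg_left h4 hC
    nlinarith
  have hc1 : η ^ 2 / 8 ≤ η := by nlinarith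
  rcases ht with ht | ht
  · exact hblock t (ht.trans (mul_le_mul_of_nonneg_right hc1 hR0.le))
  by_cases hsm : (t : ℝ) * k ≤ η * R k
  · exact hblock t hsm
  push Not at hsm
  -- `t` is at least two, otherwise the bound is trivial
  rcases Nat.lt_or_ge t 2 with ht2 | ht2
  · interval_cases t
    · simp
    · have := R_step k
      have : (R k : ℝ) ≤ R (k - 1) + k := by exact_mod_cast this
      simp only [Nat.cast_one, sub_self, mul_zero, zero_div, zero_mul, sub_zero]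
      linarith
  have ht2R : (2 : ℝ) ≤ t := by exact_mod_cast ht2
  -- `t ≤ k`
  have hlogk : 1 ≤ Real.log k := by
    rw [Real.le_log_iff_exp_le hk0]
    have := Real.exp_one_lt_d9
    linarith
  have htk : t ≤ k := by
    have h5 : (t : ℝ) ≤ k := by
      have h6 : (t : ℝ) ^ 2 ≤ η ^ 2 / 8 * k := by nlinarith [sq_nonneg (t : ℝ)]
      nlinarith
    exact_mod_cast h5
  -- the required gain
  have hneed : (1 - ε) * ((t : ℝ) * (t - 1) / 2) * Real.log k ≤ η ^ 2 * k / 16 := by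
    have h5 : (t : ℝ) * (t - 1) / 2 ≤ (t : ℝ) ^ 2 / 2 := by nlinarith
    have h6 : (0 : ℝ) ≤ (t : ℝ) * (t - 1) / 2 := by
      have : (0 : ℝ) ≤ (t : ℝ) - 1 := by linarith
      positivity
    calc (1 - ε) * ((t : ℝ) * (t - 1) / 2) * Real.log k
        ≤ 1 * ((t : ℝ) ^ 2 / 2) * Real.log k := by
          apply mul_le_mul_of_nonneg_right _ hL0
          apply mul_le_mul (by linarith) h5 h6 (by norm_num)
      _ = (t : ℝ) ^ 2 * Real.log k / 2 := by ring
      _ ≤ (η ^ 2 / 8 * k) / 2 := by linarith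
      _ = η ^ 2 * k / 16 := by ring
  set t₁ : ℕ := ⌊η * R k / k⌋₊ with ht₁
  have hfl : (t₁ : ℝ) ≤ η * R k / k := Nat.floor_le (by positivity)
  have hfl2 : η * R k / k < (t₁ : ℝ) + 1 := Nat.lt_floor_add_one _
  have hfl3 : (t₁ : ℝ) * k ≤ η * R k := by
    rwa [le_div_iff₀ hk0] at hfl
  have hfl4 : η * R k < ((t₁ : ℝ) + 1) * k := by
    rwa [div_lt_iff₀ hk0] at hfl2
  rcases Nat.lt_or_ge t₁ 2 with hlt | hge
  · -- the pair case
    have h5 : (t₁ : ℝ) + 1 ≤ 2 := by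
      have : ((t₁ + 1 : ℕ) : ℝ) ≤ ((2 : ℕ) : ℝ) := by exact_mod_cast (by omega : t₁ + 1 ≤ 2)
      push_cast at this
      linarith
    have h6 : (R k : ℝ) * η ≤ 2 * k := by nlinarith
    have h7 := pair_gain η hη hη1 k hk8 h6
    have h8 := R_iter (k - 2) (t - 2) (by omega)
    rw [show k - 2 - (t - 2) = k - t by omega] at h8
    have h9 : (R (k - 2) : ℝ) ≤ R (k - t) + ((t : ℝ) - 2) * ((k : ℝ) - 2) := by
      have : (R (k - 2) : ℝ) ≤ ((R (k - t) + (t - 2) * (k - 2) : ℕ) : ℝ) := by exact_mod_cast h8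
      push_cast [Nat.cast_sub ht2, Nat.cast_sub (show 2 ≤ k by omega)] at this
      exact this
    have h10 : η ^ 2 * k / 16 ≤ η * k / 16 := by
      have : η ^ 2 * k ≤ η * k := mul_le_mul_of_nonneg_right (by nlinarith) hk0.le
      linarith
    nlinarith
  · -- the block case
    have hgeR : (2 : ℝ) ≤ t₁ := by exact_mod_cast hge
    have ht₁t : t₁ ≤ t := by
      have : (t₁ : ℝ) < t := by
        by_contra hcon
        push Not at hcon
        have := mul_le_mul_of_nonneg_right hcon hk0.le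
        linarith
      exact_mod_cast this.le
    have h3 := H1 k hk1 t₁ (by
      rw [le_div_iff₀ hk0]
      exact hfl3.trans (mul_le_mul_of_nonneg_right hηη hR0.le))
    have h5 : (2 / 3) * (η * R k) ≤ (t₁ : ℝ) * k := by nlinarith
    have h6 : η ^ 2 * (R k : ℝ) / 9 ≤ ((t₁ : ℝ) * (t₁ - 1) / 2) * ((k : ℝ) ^ 2 / R k) := by
      rw [← mul_div_assoc, le_div_iff₀ hR0]
      have h7 : ((t₁ : ℝ) * k) * ((t₁ : ℝ) * k) / 4 ≤
          ((t₁ : ℝ) * (t₁ - 1) / 2) * (k : ℝ) ^ 2 := by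
        have : (t₁ : ℝ) * t₁ / 4 ≤ (t₁ : ℝ) * (t₁ - 1) / 2 := by nlinarith
        have := mul_le_mul_of_nonneg_right this (sq_nonneg (k : ℝ))
        nlinarith
      have h8 : ((2 / 3) * (η * R k)) * ((2 / 3) * (η * R k)) ≤
          ((t₁ : ℝ) * k) * ((t₁ : ℝ) * k) :=
        mul_le_mul h5 h5 (by positivity) (by positivity)
      nlinarith
    have h7 : η ^ 2 * k / 16 ≤
        (1 - ε / 4) * (((t₁ : ℝ) * (t₁ - 1) / 2) * ((k : ℝ) ^ 2 / R k)) := by
      have h8 : η ^ 2 * (k : ℝ) / 9 ≤ η ^ 2 * (R k : ℝ) / 9 := by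
        have := mul_le_mul_of_nonneg_left hleR (sq_nonneg η)
        linarith
      have h9 : (3 / 4) * (η ^ 2 * (k : ℝ) / 9) ≤
          (1 - ε / 4) * (((t₁ : ℝ) * (t₁ - 1) / 2) * ((k : ℝ) ^ 2 / R k)) :=
        mul_le_mul (by linarith) (h8.trans h6) (by positivity) (by linarith)
      have h10 : 0 ≤ η ^ 2 * (k : ℝ) := by positivity
      linarith
    have h8 := R_iter (k - t₁) (t - t₁) (by omega)
    rw [show k - t₁ - (t - t₁) = k - t by omega] at h8
    have h9 : (R (k - t₁) : ℝ) ≤ R (k - t) + ((t : ℝ) - t₁) * ((k : ℝ) - t₁) := by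
      have : (R (k - t₁) : ℝ) ≤ ((R (k - t) + (t - t₁) * (k - t₁) : ℕ) : ℝ) := by
        exact_mod_cast h8
      push_cast [Nat.cast_sub ht₁t, Nat.cast_sub (show t₁ ≤ k by omega)] at this
      exact this
    have h10 : 0 ≤ (t : ℝ) - t₁ := by
      have : (t₁ : ℝ) ≤ t := by exact_mod_cast ht₁t
      linarith
    nlinarith [mul_nonneg h10 (by linarith : (0 : ℝ) ≤ (t₁ : ℝ))]

end Pool.Agent.H94.Ram
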