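import Pool.Agent.H94.Ram.Avg
import Pool.Agent.H41.RamseyStep

/-!
# Differences `R(3,k) - R(3,k-t)` and neighbourhoods of independent sets
-/

set_option autoImplicit false

namespace Pool.Agent.H94.Ram

open Finset
open Pool.Agent.H41.RamseyStep (Good R R_spec exists_good Good.card_lt R_pos)

section graph

variable {V : Type*} [Fintype V] [DecidableEq V] {G : SimpleGraph V} [DecidableRel G.Adj] {k : ℕ}

lemma good_deg (hG : Good G k) (v : V) : (nb G v).card < k := by
  apply hG.2
  intro x hx y hy hxy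
  rw [mem_nb] at hx hy
  exact hG.1 v x y hx hxy hy

/-- removing an independent set and its neighbours -/
lemma good_remove (hG : Good G k) (I : Finset V) (hI : ∀ x ∈ I, ∀ y ∈ I, ¬ G.Adj x y) :
    Fintype.card V < R (k - I.card) + I.card + (nbU G I).card := by
  classical
  have hk : I.card < k := hG.2 I hI
  set W : Finset V := univ \ (I ∪ nbU G I) with hW
  have hWm : ∀ y : V, y ∈ W → y ∉ I ∧ y ∉ nbU G I := by
    intro y hy
    rw [hW, Finset.mem_sdiff, Finset.mem_union, not_or] at hy
    exact hy.2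
  have h1 : Good (G.comap (Function.Embedding.subtype (fun x => x ∈ W))) (k - I.card) := by
    refine ⟨fun a b c h1 h2 h3 => hG.1 _ _ _ h1 h2 h3, fun s hs => ?_⟩
    have hmem : ∀ x ∈ s.map (Function.Embedding.subtype (fun x => x ∈ W)),
        x ∉ I ∧ ∀ u ∈ I, ¬ G.Adj x u := by
      intro x hx
      rw [Finset.mem_map] at hx
      obtain ⟨x', hx', rfl⟩ := hx
      have := hWm _ x'.2
      refine ⟨this.1, fun u hu hadj => this.2 ?_⟩
      simp only [nbU, Finset.mem_filter, Finset.mem_univ, true_and]
      exact ⟨u, hu, hadj⟩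
    have h2 : (I ∪ s.map (Function.Embedding.subtype (fun x => x ∈ W))).card < k := by
      apply hG.2
      intro x hx y hy
      rw [Finset.mem_union] at hx hy
      rcases hx with hx | hx <;> rcases hy with hy | hy
      · exact hI x hx y hy
      · intro h
        exact (hmem y hy).2 x hx h.symm
      · exact (hmem x hx).2 y hy
      · rw [Finset.mem_map] at hx hy
        obtain ⟨x', hx', rfl⟩ := hx
        obtain ⟨y', hy', rfl⟩ := hy
        exact hs x' hx' y' hy'
    rw [Finset.card_union_of_disjoint, Finset.card_map] at h2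
    · omega
    · rw [Finset.disjoint_left]
      intro x hx hx2
      exact (hmem x hx2).1 hx
  have h3 := h1.card_lt
  rw [Fintype.card_coe] at h3
  have h4 : Fintype.card V ≤ W.card + (I ∪ nbU G I).card := by
    rw [hW, Finset.card_sdiff_of_subset (subset_univ _), Finset.card_univ]
    omega
  have h5 := Finset.card_union_le I (nbU G I)
  omega

omit [DecidableEq V] in
lemma nbU_singleton (v : V) : (nbU G {v}) = nb G v := by
  ext z
  simp [nbU, nb, G.adj_comm]

end graph

lemma R_mono {a b : ℕ} (h : a ≤ b) : R a ≤ R b := by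
  by_contra hlt
  push Not at hlt
  obtain ⟨G, hG⟩ := exists_good hlt
  have hG' : Good G b := ⟨hG.1, fun s hs => (hG.2 s hs).trans_le h⟩
  have := hG'.card_lt
  simp at this

lemma R_zero : R 0 = 0 := by
  by_contra h
  obtain ⟨G, hG⟩ := exists_good (Nat.pos_of_ne_zero h)
  have := hG.2 ∅ (by simp)
  simp at this

lemma le_R (k : ℕ) : k ≤ R k := by
  by_contra h
  push Not at h
  have hG : Good (⊥ : SimpleGraph (Fin (R k))) k := by
    refine ⟨fun a b c h => absurd h (by simp), fun s _ => ?_⟩
    have := Finset.card_le_univ s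
    simp only [Fintype.card_fin] at this
    omega
  have := hG.card_lt
  simp at this

/-- `R(3,k) ≤ R(3,k-1) + k` -/
lemma R_step (k : ℕ) : R k ≤ R (k - 1) + k := by
  classical
  rcases Nat.eq_zero_or_pos k with rfl | hk
  · simp
  rcases Nat.eq_or_lt_of_le hk with h1 | h1
  · -- `k = 1`
    subst h1
    by_contra h
    push Not at h
    have h0 : R (1 - 1) = 0 := R_zero
    rw [h0] at h
    have h2 : (1 : ℕ) < R 1 := by omega
    obtain ⟨G, hG⟩ := exists_good h2
    have := hG.2 {0} (by simp)
    simp at this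
  · have hpos : 0 < R k := R_pos hk
    have hk2 := le_R k
    obtain ⟨G, hG⟩ := exists_good (show R k - 1 < R k by omega)
    have hv : 0 < R k - 1 := by omega
    have h2 := good_remove hG {⟨0, hv⟩} (by simp)
    rw [nbU_singleton, Finset.card_singleton, Fintype.card_fin] at h2
    have h3 := good_deg hG ⟨0, hv⟩
    omega

lemma R_iter (k s : ℕ) (hs : s ≤ k) : R k ≤ R (k - s) + s * k := by
  induction s with
  | zero => simp
  | succ s ih =>
    have h1 := ih (by omega)
    have h2 := R_step (k - s)
    rw [show k - s - 1 = k - (s + 1) by omega] at h2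
    have : (s + 1) * k = s * k + k := by ring
    omega

/-- the gain for `t` consecutive differences if all degrees of an extremal graph are at least
`δ` -/
theorem window_of_mindeg {k t δ : ℕ} (hk : 2 ≤ k) (ht : 2 ≤ t) (htk : t ≤ k) (hRt : t + 1 ≤ R k)
    (hR : 4 ≤ R k) (h3 : 3 * (k - 1) * (t - 2) ≤ R k - 1 - 2)
    (G : SimpleGraph (Fin (R k - 1))) [DecidableRel G.Adj] (hG : Good G k)
    (hδ : ∀ v, δ ≤ (nb G v).card) :
    (R k : ℝ) ≤ R (k - t) + t * k - ((t : ℝ) * (t - 1) / 2) *
      ((δ : ℝ) * (δ - 1) / ((R k : ℝ) - 1)) *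
      (1 - 3 * ((k : ℝ) - 1) * ((t : ℝ) - 2) / ((R k : ℝ) - 1 - 2)) := by
  classical
  have hD : ∀ v, (nb G v).card ≤ k - 1 := fun v => by have := good_deg hG v; omega
  have hN : Fintype.card (Fin (R k - 1)) = R k - 1 := Fintype.card_fin _
  obtain ⟨I, hI1, hI2, hI3⟩ := exists_indep G t (k - 1) δ ht (by rw [hN]; omega)
    (by rw [hN]; omega) hG.1 hδ hD (by rw [hN]; exact h3)
  have h1 := good_remove hG I hI1
  rw [hN] at h1 hI3
  have hIk : I.card < k := hG.2 I hI1
  have h2 := R_iter (k - I.card) (t - I.card) (by omega)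
  rw [show k - I.card - (t - I.card) = k - t by omega] at h2
  have h4 : R k ≤ R (k - t) + (t - I.card) * (k - I.card) + I.card + (nbU G I).card := by omega
  have h5 : (R k : ℝ) ≤ R (k - t) + ((t : ℝ) - I.card) * ((k : ℝ) - I.card) + I.card +
      (nbU G I).card := by
    have : (R k : ℝ) ≤ ((R (k - t) + (t - I.card) * (k - I.card) + I.card +
        (nbU G I).card : ℕ) : ℝ) := by exact_mod_cast h4
    push_cast [Nat.cast_sub hI2, Nat.cast_sub hIk.le] at this
    exact this
  have e1 : (((R k - 1 : ℕ)) : ℝ) = (R k : ℝ) - 1 := by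
    rw [Nat.cast_sub (by omega), Nat.cast_one]
  have e2 : (((k - 1 : ℕ)) : ℝ) = (k : ℝ) - 1 := by
    rw [Nat.cast_sub (by omega), Nat.cast_one]
  rw [e1, e2] at hI3
  have h6 : (0 : ℝ) ≤ (t : ℝ) - I.card := by
    have : (I.card : ℝ) ≤ t := by exact_mod_cast hI2
    linarith
  have h7 : (0 : ℝ) ≤ (I.card : ℝ) := Nat.cast_nonneg _
  nlinarith [mul_nonneg h6 h7]

/-- a vertex of small degree in an extremal graph -/
theorem step_of_deg {k : ℕ} (G : SimpleGraph (Fin (R k - 1))) [DecidableRel G.Adj]
    (hG : Good G k) (v : Fin (R k - 1)) :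
    R k ≤ R (k - 1) + 1 + (nb G v).card := by
  classical
  have h1 := good_remove hG {v} (by simp)
  rw [nbU_singleton, Finset.card_singleton, Fintype.card_fin] at h1
  have := v.2
  omega

end Pool.Agent.H94.Ram
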